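import Pool.Agent.Helper17.RZ.St4

/-!
# Project RZ (MP_77656e_ag), modules RZ-D7, RZ-D8: the matrix version of the exactness of the augmented
Cech complex, and finite dimension of the DG algebra of global endomorphisms of the resolution
-/

set_option autoImplicit false

open MvPolynomial

namespace Pool.Agent.Helper24.RZ

open Pool.Agent.Helper17.RZ

universe u

noncomputable section

variable {k : Type u} [Field k]

/-! ### Entries of morphisms of complexes -/

theorem entry_of_isDeg {X Y : YObj k} {n : ℤ} {φ : X.G.V →ₗ[LL k] Y.G.V}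
    (h : IsDeg (X := X.G) (Y := Y.G) n φ) (i : Y.J) (j : X.J) (hij : Y.gr i ≠ X.gr j + n) :
    YObj.mat φ i j = 0 := by
  have h1 : YObj.mat (φ ∘ₗ X.G.pr (X.gr j)) i j = YObj.mat (Y.G.pr (X.gr j + n) ∘ₗ φ) i j := by
    rw [h (X.gr j)]
  rw [YObj.mat_comp, YObj.mat_comp, YObj.mat_pr, YObj.mat_pr, Matrix.mul_diagonal, Matrix.diagonal_mul,
    if_pos rfl, mul_one, if_neg hij, zero_mul] at h1
  exact h1

theorem isDeg_of_entry {X Y : YObj k} {n : ℤ} {φ : X.G.V →ₗ[LL k] Y.G.V}
    (h : ∀ (i : Y.J) (j : X.J), Y.gr i ≠ X.gr j + n → YObj.mat φ i j = 0) :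
    IsDeg (X := X.G) (Y := Y.G) n φ := by
  intro l
  apply YObj.mat_injective
  rw [YObj.mat_comp, YObj.mat_comp, YObj.mat_pr, YObj.mat_pr]
  ext i j
  rw [Matrix.mul_diagonal, Matrix.diagonal_mul]
  by_cases h0 : Y.gr i = X.gr j + n
  · by_cases h1 : X.gr j = l
    · rw [if_pos h1, if_pos (by omega), mul_one, one_mul]
    · rw [if_neg h1, if_neg (by omega), mul_zero, zero_mul]
  · rw [h i j h0, mul_zero, zero_mul]

/-- the entry of a morphism as an additive map -/
def matH {X Y : YObj k} (i : Y.J) (j : X.J) : (X.G.V →ₗ[LL k] Y.G.V) →+ LL k where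
  toFun φ := YObj.mat φ i j
  map_zero' := rfl
  map_add' _ _ := rfl

theorem cdel_map {M N : Type u} [AddCommGroup M] [AddCommGroup N] (f : M →+ N)
    (c : Finset GW → M) (σ : Finset GW) : f (cdel c σ) = cdel (fun τ => f (c τ)) σ := by
  unfold cdel
  rw [map_sum]
  exact Finset.sum_congr rfl fun i _ => map_zsmul f _ _

theorem cdel_zero {M : Type u} [AddCommGroup M] (σ : Finset GW) :
    cdel (fun _ : Finset GW => (0 : M)) σ = 0 := by
  unfold cdel
  exact Finset.sum_eq_zero fun _ _ => smul_zero _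

/-! ### Twists and degrees of the resolution -/

theorem qtw_bd (j : Fin 8) : -1 ≤ qtw j ∧ qtw j ≤ 0 := by revert j; decide

theorem qgr_bd (j : Fin 8) : 0 ≤ qgr j ∧ qgr j ≤ 1 := by revert j; decide

theorem QY_tw (j : (QY k).J) (s : Fin 4) : -1 ≤ (QY k).tw j s ∧ (QY k).tw j s ≤ 0 := by
  obtain ⟨⟨⟨p, q⟩, r⟩, t⟩ := j
  have h : (QY k).tw (((p, q), r), t) s = (((Pi.single 0 (qtw p) : Fin 4 → ℤ) s +
    (Pi.single 1 (qtw q) : Fin 4 → ℤ) s) + (Pi.single 2 (qtw r) : Fin 4 → ℤ) s) +
    (Pi.single 3 (qtw t) : Fin 4 → ℤ) s := rfl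
  rw [h]
  have h0 := qtw_bd p
  have h1 := qtw_bd q
  have h2 := qtw_bd r
  have h3 := qtw_bd t
  fin_cases s <;> simp [h0, h1, h2, h3]

theorem QY_gr (j : (QY k).J) : 0 ≤ (QY k).gr j ∧ (QY k).gr j ≤ 4 := by
  obtain ⟨⟨⟨p, q⟩, r⟩, t⟩ := j
  have h : (QY k).gr (((p, q), r), t) = ((qgr p + qgr q) + qgr r) + qgr t := rfl
  rw [h]
  have h0 := qgr_bd p
  have h1 := qgr_bd q
  have h2 := qgr_bd r
  have h3 := qgr_bd t
  omega

/-! ### D7 -/

theorem qyEx : CechEx.{u} → AvLem.{u} → QYEx.{u} := by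
  intro hC hA k _ hk m c hc hcd
  obtain ⟨a1, a2, a3, a4, a5, _, _⟩ := hA k hk (QY k) (QY k)
  have key : ∀ i j : (QY k).J, ∃ b : Finset GW → LL k,
      (∀ σ, b σ ∈ HD k (fun s => (QY k).tw i s - (QY k).tw j s) ∧ b σ ∈ Dn k (fs k σ)) ∧
      (∀ σ, cdel b σ = YObj.mat (X := QY k) (Y := QY k) (c σ) i j) ∧
      ((QY k).gr i ≠ (QY k).gr j + m → ∀ σ, b σ = 0) := by
    intro i j
    by_cases hij : (QY k).gr i = (QY k).gr j + m
    · obtain ⟨b, hb, hb'⟩ := hC k hk (fun s => (QY k).tw i s - (QY k).tw j s) (by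
        intro s
        have h1 := QY_tw (k := k) i s
        have h2 := QY_tw (k := k) j s
        change -1 ≤ (QY k).tw i s - (QY k).tw j s
        omega) (fun σ => YObj.mat (X := QY k) (Y := QY k) (c σ) i j) (fun σ => (hc σ).1.1 i j) (by
        intro σ
        have h1 := cdel_map (matH (X := QY k) (Y := QY k) i j) c σ
        rw [hcd σ, map_zero] at h1
        exact h1.symm)
      exact ⟨b, hb, hb', fun h => absurd hij h⟩
    · refine ⟨fun _ => 0, fun σ => ⟨Submodule.zero_mem _, Subalgebra.zero_mem _⟩, ?_, fun _ _ => rfl⟩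
      intro σ
      rw [entry_of_isDeg (hc σ).2 i j hij]
      exact cdel_zero σ
  choose b0 hb0 hb1 hb2 using key
  obtain ⟨B, hBm⟩ : ∃ B : Finset GW → ((QY k).G.V →ₗ[LL k] (QY k).G.V),
      ∀ σ i j, YObj.mat (X := QY k) (Y := QY k) (B σ) i j = b0 i j σ :=
    ⟨fun σ => YObj.lin (X := QY k) (Y := QY k) (fun i j => b0 i j σ), fun σ i j =>
      congrFun (congrFun (YObj.mat_lin (X := QY k) (Y := QY k) (fun i j => b0 i j σ)) i) j⟩
  have hBc : ∀ σ, cdel B σ = c σ := by
    intro σ
    apply YObj.mat_injective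
    ext i j
    have h1 := cdel_map (matH (X := QY k) (Y := QY k) i j) B σ
    change YObj.mat (X := QY k) (Y := QY k) (cdel B σ) i j =
      cdel (fun τ => YObj.mat (X := QY k) (Y := QY k) (B τ) i j) σ at h1
    simp only [hBm] at h1
    rw [h1]
    exact hb1 i j σ
  let A : ((QY k).G.V →ₗ[LL k] (QY k).G.V) →+ ((QY k).G.V →ₗ[LL k] (QY k).G.V) :=
    AddMonoidHom.mk' (av (QY k) (QY k)) a3
  refine ⟨fun σ => av (QY k) (QY k) (B σ), fun σ => ⟨?_, ?_⟩, fun σ => ?_⟩
  · apply a1
    intro i j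
    rw [hBm]
    exact hb0 i j σ
  · apply a2
    apply isDeg_of_entry
    intro i j hij
    rw [hBm]
    exact hb2 i j hij σ
  · have h1 := cdel_map A B σ
    rw [hBc] at h1
    change av (QY k) (QY k) (c σ) = _ at h1
    rw [a5 σ (c σ) (hc σ).1] at h1
    exact h1.symm

/-! ### D8 -/

/-- global functions of degree `d` -/
def WW (k : Type u) [Field k] (d : Fin 4 → ℤ) : Submodule k (LL k) :=
  HD k d ⊓ (Dn k 1).toSubmodule

theorem weight_finite (f : Fin 4 → ℕ) :
    {c : (Fin 4 × Bool) →₀ ℕ | Finsupp.weight wt c = f}.Finite := by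
  refine (Set.finite_Iic (Finsupp.equivFunOnFinite.symm (fun p : Fin 4 × Bool => f p.1))).subset ?_
  intro c hc
  rw [Set.mem_ofPred_eq] at hc
  rw [Set.mem_Iic]
  intro p
  rw [Finsupp.equivFunOnFinite_symm_apply_apply, ← hc, Finsupp.weight_apply, Finsupp.sum_fintype _ _ (by simp)]
  rw [Finset.sum_apply]
  refine le_trans ?_ (Finset.single_le_sum (fun q _ => Nat.zero_le _) (Finset.mem_univ p))
  simp [wt]

theorem whs_finite (f : Fin 4 → ℕ) :
    Module.Finite k (weightedHomogeneousSubmodule k (wt : Fin 4 × Bool → (Fin 4 → ℕ)) f) := by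
  rw [weightedHomogeneousSubmodule_eq_finsupp_supported]
  have := (weight_finite f).to_subtype
  exact Module.Finite.equiv
    (AddMonoidAlgebra.supportedEquivFinsupp {c : (Fin 4 × Bool) →₀ ℕ | Finsupp.weight wt c = f}).symm

theorem WW_finite (hN : HomNum.{u}) (d : Fin 4 → ℤ) : Module.Finite k (WW k d) := by
  have := whs_finite (k := k) (fun s => (d s).toNat)
  have hle : WW k d ≤ (weightedHomogeneousSubmodule k (wt : Fin 4 × Bool → (Fin 4 → ℕ))
      (fun s => (d s).toNat)).map (IsScalarTower.toAlgHom k (SS k) (LL k)).toLinearMap := by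
    rintro x ⟨hx, hx'⟩
    obtain ⟨N, g, f, _, hg, hf, hxg⟩ := hN k 1 0 one_ne_zero (isWeightedHomogeneous_one k wt) d x hx hx' 0
    rcases hf with rfl | hf
    · exact Submodule.zero_mem _
    · refine ⟨g, ?_, ?_⟩
      · have : (fun s => (d s).toNat) = f := by
          funext s
          have := hf s
          simp only [Pi.zero_apply, Nat.cast_zero, mul_zero, add_zero] at this
          omega
        rw [this]
        exact hg
      · rw [al, map_one, one_pow, mul_one] at hxg
        exact hxg.symm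
  exact Module.Finite.of_injective (Submodule.inclusion hle) (Submodule.inclusion_injective hle)

theorem fs_empty : fs k ∅ = 1 := Finset.prod_empty

theorem qyFin : HomNum.{u} → QYFin.{u} := by
  intro hN k _
  refine ⟨fun n => ?_, 4, fun n hn => ?_⟩
  · have hW : ∀ i j : (QY k).J, Module.Finite k (WW k (fun s => (QY k).tw i s - (QY k).tw j s)) :=
      fun i j => WW_finite hN _
    let F : (ysys k).gl (QY k) n →ₗ[k] ((i : (QY k).J) → (j : (QY k).J) →
        WW k (fun s => (QY k).tw i s - (QY k).tw j s)) :=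
      { toFun := fun φ i j => ⟨YObj.mat (X := QY k) (Y := QY k) φ.1 i j, by
          have h1 := φ.2.1.1 i j
          rw [fs_empty] at h1
          exact ⟨h1.1, h1.2⟩⟩
        map_add' := fun _ _ => rfl
        map_smul' := fun _ _ => rfl }
    have hF : Function.Injective F := by
      intro φ ψ h
      apply Subtype.ext
      apply YObj.mat_injective (X := QY k) (Y := QY k)
      ext i j
      have h1 := congrFun (congrFun h i) j
      exact congrArg Subtype.val h1
    exact Module.Finite.of_injective F hF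
  · have hz : ∀ φ : (ysys k).gl (QY k) n, φ = 0 := by
      intro φ
      apply Subtype.ext
      apply YObj.mat_injective (X := QY k) (Y := QY k)
      ext i j
      refine entry_of_isDeg (X := QY k) (Y := QY k) φ.2.2 i j ?_
      have h1 := QY_gr (k := k) i
      have h2 := QY_gr (k := k) j
      intro h3
      have h4 : |n| ≤ 4 := by rw [abs_le]; constructor <;> omega
      have h5 : ((4 : ℕ) : ℤ) < |n| := hn
      push_cast at h5
      omega
    exact ⟨fun φ ψ => (hz φ).trans (hz ψ).symm⟩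

end

end Pool.Agent.Helper24.RZ
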